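import Mathlib
import Pool.Agent.Y268.D3.Stm
import Pool.Agent.H153R2.Kad3.Orbit
import Pool.Agent.H403R2.Kad3.Crude
import Pool.Agent.H778R2.Kad3.Vmap
import Pool.Agent.H668R2.Kad.Phtr
import Pool.Agent.H539R2.Kad.Chars
import Pool.Agent.H834R2.Kad2.Rec

/-!
D3-UNIT: the bound for flat unitaries, cubic version (helper764).
-/

open scoped ComplexOrder InnerProductSpace ComplexConjugate
open Finset

noncomputable section

namespace Y764.D3

open H759R2.Kad H711R2.KG Y268.D3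

section forms

variable {K : Type} [NormedAddCommGroup K] [InnerProductSpace ℂ K]

theorem form_mono {q : Form K} {C C' : ℝ} (h : IsForm q C) (hC : C ≤ C') : IsForm q C' where
  add := h.add
  smul := h.smul
  herm := h.herm
  pos := h.pos
  bd ξ η := (h.bd ξ η).trans (by gcongr)

theorem qa_form {q : Form K} {C : ℝ} (h : IsForm q C) {ι : Type} [Fintype ι] :
    IsForm (qa q (ι := ι)) (Fintype.card ι * |C|) where
  add ξ η η' := by
    simp only [qa, PiLp.add_apply, h.add, sum_add_distrib]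
  smul c ξ η := by
    simp only [qa, PiLp.smul_apply, h.smul, mul_sum]
  herm ξ η := by
    simp only [qa, map_sum]
    exact sum_congr rfl fun i _ => h.herm _ _
  pos ξ := by
    simp only [qa, Complex.re_sum]
    exact sum_nonneg fun i _ => h.pos _
  bd ξ η := by
    simp only [qa]
    refine (norm_sum_le _ _).trans ?_
    calc ∑ i, ‖q (ξ i) (η i)‖ ≤ ∑ _i : ι, |C| * ‖ξ‖ * ‖η‖ := by
          refine sum_le_sum fun i _ => (h.bd _ _).trans ?_
          have h1 : ‖ξ i‖ ≤ ‖ξ‖ := PiLp.norm_apply_le ξ i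
          have h2 : ‖η i‖ ≤ ‖η‖ := PiLp.norm_apply_le η i
          have h3 : C * ‖ξ i‖ * ‖η i‖ ≤ |C| * ‖ξ i‖ * ‖η i‖ := by
            gcongr
            exact le_abs_self C
          refine h3.trans ?_
          gcongr
      _ = _ := by
        rw [sum_const, card_univ, nsmul_eq_mul]
        ring

theorem form_comp {q : Form K} {C : ℝ} (h : IsForm q C) (T : K →L[ℂ] K) :
    IsForm (fun ξ η => q (T ξ) (T η)) (|C| * ‖T‖ ^ 2) where
  add ξ η η' := by simp only [map_add, h.add]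
  smul c ξ η := by simp only [map_smul, h.smul]
  herm ξ η := h.herm _ _
  pos ξ := h.pos _
  bd ξ η := by
    refine (h.bd _ _).trans ?_
    have h3 : C * ‖T ξ‖ * ‖T η‖ ≤ |C| * ‖T ξ‖ * ‖T η‖ := by
      gcongr
      exact le_abs_self C
    refine h3.trans ?_
    have h1 := T.le_opNorm ξ
    have h2 := T.le_opNorm η
    calc |C| * ‖T ξ‖ * ‖T η‖ ≤ |C| * (‖T‖ * ‖ξ‖) * (‖T‖ * ‖η‖) := by gcongr
      _ = |C| * ‖T‖ ^ 2 * ‖ξ‖ * ‖η‖ := by ring

end forms

theorem tr_mul_comm {B : Type} [CStarAlgebra B] {τ : B →ₗ[ℂ] ℂ} (hτ : IsTracialState τ)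
    {ι : Type} [Fintype ι] (X Y : CStarMatrix ι ι B) : tr τ ι (X * Y) = tr τ ι (Y * X) := by
  simp only [tr_apply, CStarMatrix.mul_apply, map_sum]
  rw [sum_comm]
  exact sum_congr rfl fun i _ => sum_congr rfl fun j _ => hτ.comm _ _

section main

variable {B : Type} [CStarAlgebra B] [PartialOrder B] [StarOrderedRing B] {τ : B →ₗ[ℂ] ℂ}
  {K : Type} [NormedAddCommGroup K] [InnerProductSpace ℂ K] [CompleteSpace K]
  {w : B →ₗ[ℂ] (K →L[ℂ] K)}

theorem mid_sample (hmid : S_mid) (hτ : IsTracialState τ) (hw : IsHom w) {q₁ q₂ : Form K} {C : ℝ}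
    (h1 : IsForm q₁ C) (h2 : IsForm q₂ C) (hd1 : DixForm τ (vmap w) q₁) (hd2 : DixForm τ w q₂)
    {m L : ℕ} (hm : 0 < m) (hL : 0 < L) {γ : ℝ} (hγ : 0 ≤ γ) (hl : LvlBd w L γ)
    (D₁ D₂ : CStarMatrix (Fin (m * L)) (Fin (m * L)) B)
    (hD₁ : D₁ ∈ unitary (CStarMatrix (Fin (m * L)) (Fin (m * L)) B))
    (hD₂ : D₂ ∈ unitary (CStarMatrix (Fin (m * L)) (Fin (m * L)) B))
    (X : CStarMatrix (Fin (m * L)) (Fin (m * L)) B) (ξ η : HH (Fin (m * L)) K) :
    ‖⟪amp w (Fin (m * L)) X ξ, η⟫_ℂ‖ ^ 2 ≤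
      (18 * γ ^ 2 * ‖X‖ ^ 2 + 18 * γ ^ 2 / L * (tr τ (Fin (m * L)) (star X * X)).re) *
        (qa q₂ (amp w (Fin (m * L)) D₂ ξ) (amp w (Fin (m * L)) D₂ ξ)).re *
        (qa q₁ (amp (vmap w) (Fin (m * L)) D₁ η) (amp (vmap w) (Fin (m * L)) D₁ η)).re := by
  have h := hmid B τ hτ K w hw q₁ q₂ C h1 h2 hd1 hd2 m L hm hL γ hγ hl (D₁ * X * star D₂)
    (amp w (Fin (m * L)) D₂ ξ) (amp (vmap w) (Fin (m * L)) D₁ η)
  have e1 : ⟪amp w (Fin (m * L)) (D₁ * X * star D₂) (amp w (Fin (m * L)) D₂ ξ),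
      amp (vmap w) (Fin (m * L)) D₁ η⟫_ℂ = ⟪amp w (Fin (m * L)) X ξ, η⟫_ℂ := by
    rw [← mul_apply_eq_comp, ← Orbit.amp_mul hw, mul_assoc _ (star D₂) D₂,
      (Unitary.mem_iff.mp hD₂).1, mul_one, (prove3_vmap.{0, 0} B K w).1,
      ContinuousLinearMap.star_eq_adjoint, ContinuousLinearMap.adjoint_inner_right,
      ← mul_apply_eq_comp, ← Orbit.amp_mul hw, ← mul_assoc, (Unitary.mem_iff.mp hD₁).1, one_mul]
  have e2 : tr τ (Fin (m * L)) (star (D₁ * X * star D₂) * (D₁ * X * star D₂)) =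
      tr τ (Fin (m * L)) (star X * X) := by
    have e3 : star (D₁ * X * star D₂) * (D₁ * X * star D₂) = D₂ * (star X * X * star D₂) := by
      rw [star_mul, star_mul, star_star]
      calc D₂ * (star X * star D₁) * (D₁ * X * star D₂) =
          D₂ * (star X * (star D₁ * D₁) * X * star D₂) := by simp only [mul_assoc]
        _ = _ := by rw [(Unitary.mem_iff.mp hD₁).1, mul_one]
    rw [e3, tr_mul_comm hτ, mul_assoc, (Unitary.mem_iff.mp hD₂).1, mul_one]
  have e4 : ‖D₁ * X * star D₂‖ ≤ ‖X‖ := by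
    calc ‖D₁ * X * star D₂‖ ≤ ‖D₁‖ * ‖X‖ * ‖star D₂‖ :=
          (norm_mul_le _ _).trans (mul_le_mul_of_nonneg_right (norm_mul_le _ _) (norm_nonneg _))
      _ ≤ 1 * ‖X‖ * 1 := by
          have a1 := Rec2.norm_unitary_le hD₁
          have a2 := Rec2.norm_unitary_le (Unitary.star_mem hD₂)
          gcongr
      _ = ‖X‖ := by ring
  rw [e1, e2] at h
  refine h.trans ?_
  have p1 := (qa_form h1 (ι := Fin (m * L))).pos (amp (vmap w) (Fin (m * L)) D₁ η)
  have p2 := (qa_form h2 (ι := Fin (m * L))).pos (amp w (Fin (m * L)) D₂ ξ)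
  refine mul_le_mul_of_nonneg_right (mul_le_mul_of_nonneg_right ?_ p2) p1
  have e5 : ‖D₁ * X * star D₂‖ ^ 2 ≤ ‖X‖ ^ 2 := pow_le_pow_left₀ (norm_nonneg _) e4 2
  calc 18 * γ ^ 2 * (‖D₁ * X * star D₂‖ ^ 2 +
        1 / (L : ℝ) * (tr τ (Fin (m * L)) (star X * X)).re)
      ≤ 18 * γ ^ 2 * (‖X‖ ^ 2 + 1 / (L : ℝ) * (tr τ (Fin (m * L)) (star X * X)).re) := by gcongr
    _ = _ := by ring

/-- The traces of the powers are small on average over the phases. -/
theorem phase_tr (hph : St_phtr.{0}) (hτ : IsTracialState τ) (m L : ℕ) (hm : 0 < m)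
    (hL : 25920 * (m : ℝ) ^ 11 ≤ L) (R : ℕ) [NeZero R] (hR : 2 * m < R)
    (x : CStarMatrix (Fin (m * L)) (Fin (m * L)) B)
    (hx : x ∈ unitary (CStarMatrix (Fin (m * L)) (Fin (m * L)) B)) :
    ∑ ω : Fin (m * L) → ZMod R, ∑ k ∈ range (2 * m),
      ‖tr τ (Fin (m * L)) ((x * ph B ω) ^ (k + 1))‖ ≤
      (Fintype.card (Fin (m * L) → ZMod R) : ℝ) * (L / (50 * m)) := by
  have hmr : (1 : ℝ) ≤ m := by exact_mod_cast hm
  have hm0 : (0 : ℝ) < m := by linarith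
  set G' : ℝ := (Fintype.card (Fin (m * L) → ZMod R) : ℝ) with hG'
  have hG0 : 0 < G' := by
    rw [hG']
    exact_mod_cast Fintype.card_pos
  have hm11 : (m : ℝ) ^ 6 ≤ (m : ℝ) ^ 11 := pow_le_pow_right₀ hmr (by norm_num)
  have hL0 : (0 : ℝ) < L := by
    have : (0 : ℝ) < (m : ℝ) ^ 11 := by positivity
    linarith
  rw [sum_comm]
  have key : ∀ k ∈ range (2 * m), ∑ ω : Fin (m * L) → ZMod R,
      ‖tr τ (Fin (m * L)) ((x * ph B ω) ^ (k + 1))‖ ≤ G' * (L / (100 * m ^ 2)) := by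
    intro k hk
    rw [mem_range] at hk
    have h8 : ∑ ω : Fin (m * L) → ZMod R,
        ‖tr τ (Fin (m * L)) ((x * ph B ω) ^ (k + 1))‖ ^ 2 ≤ G' * ((k + 1) * ((m * L : ℕ) : ℝ)) := by
      have := hph (Fin (m * L)) R B τ hτ x hx k (by omega)
      rw [Fintype.card_fin] at this
      exact this
    have h9 : (∑ ω : Fin (m * L) → ZMod R,
        ‖tr τ (Fin (m * L)) ((x * ph B ω) ^ (k + 1))‖) ^ 2 ≤
        G' * ∑ ω : Fin (m * L) → ZMod R,
        ‖tr τ (Fin (m * L)) ((x * ph B ω) ^ (k + 1))‖ ^ 2 := by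
      have := sq_sum_le_card_mul_sum_sq
        (s := (Finset.univ : Finset (Fin (m * L) → ZMod R)))
        (f := fun ω => ‖tr τ (Fin (m * L)) ((x * ph B ω) ^ (k + 1))‖)
      rw [Finset.card_univ] at this
      exact this
    have h10 : (0 : ℝ) ≤ ∑ ω : Fin (m * L) → ZMod R,
        ‖tr τ (Fin (m * L)) ((x * ph B ω) ^ (k + 1))‖ :=
      Finset.sum_nonneg fun ω _ => norm_nonneg _
    have hk' : ((k : ℝ) + 1) ≤ 2 * m := by exact_mod_cast hk
    rw [← pow_le_pow_iff_left₀ h10 (by positivity) two_ne_zero]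
    refine h9.trans ((mul_le_mul_of_nonneg_left h8 hG0.le).trans ?_)
    have h11 : ((k : ℝ) + 1) * ((m * L : ℕ) : ℝ) ≤ (L / (100 * m ^ 2)) ^ 2 := by
      push_cast
      calc ((k : ℝ) + 1) * (m * L) ≤ 2 * m * (m * L) := by gcongr
        _ ≤ (L / (100 * m ^ 2)) ^ 2 := by
          rw [div_pow, le_div_iff₀ (by positivity)]
          have e1 : 2 * (m : ℝ) * (m * L) * (100 * m ^ 2) ^ 2 = 20000 * m ^ 6 * L := by ring
          rw [e1, sq]
          refine mul_le_mul_of_nonneg_right ?_ hL0.le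
          nlinarith [show (0 : ℝ) < (m : ℝ) ^ 6 by positivity]
    calc G' * (G' * ((k + 1) * ((m * L : ℕ) : ℝ))) ≤ G' * (G' * (L / (100 * m ^ 2)) ^ 2) := by
          gcongr
      _ = (G' * (L / (100 * m ^ 2))) ^ 2 := by ring
  refine (sum_le_sum key).trans (le_of_eq ?_)
  rw [sum_const, card_range, nsmul_eq_mul]
  push_cast
  field_simp
  ring

/-- The final estimate. -/
theorem num_final {m L T A A' S₁ S₂ Y γ : ℝ} (hm : 1 ≤ m) (hL : 0 < L) (hA : 0 < A)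
    (hA' : 0 < A') (hS₂ : 0 ≤ S₂) (hS₁ : 0 ≤ S₁) (h2 : S₂ ≤ 4 * (m * A)) (h1 : S₁ ≤ 4 * (m * A'))
    (hY : Y ≤ 4 * (L / (50 * m)))
    (h : (m ^ 2 * T) ^ 2 ≤ (4 * m ^ 2 * (18 * γ ^ 2) + 18 * γ ^ 2 / L *
      (2 * m * (m * L) + 4 * m * Y)) * S₂ * S₁) :
    T ^ 2 ≤ 2500 * γ ^ 2 * A * A' := by
  have hm0 : 0 < m := by linarith
  have e1 : 4 * m ^ 2 * (18 * γ ^ 2) + 18 * γ ^ 2 / L * (2 * m * (m * L) + 4 * m * Y) ≤
      18 * γ ^ 2 * (7 * m ^ 2) := by
    have e2 : 18 * γ ^ 2 / L * (2 * m * (m * L) + 4 * m * Y) ≤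
        18 * γ ^ 2 / L * (2 * m * (m * L) + 4 * m * (4 * (L / (50 * m)))) := by gcongr
    have e3 : 18 * γ ^ 2 / L * (2 * m * (m * L) + 4 * m * (4 * (L / (50 * m)))) =
        18 * γ ^ 2 * (2 * m ^ 2 + 16 / 50) := by
      field_simp
      norm_num
    have e4 : 18 * γ ^ 2 * (2 * m ^ 2 + 16 / 50) ≤ 18 * γ ^ 2 * (3 * m ^ 2) := by
      refine mul_le_mul_of_nonneg_left ?_ (by positivity)
      nlinarith
    linarith
  have e5 : (m ^ 2 * T) ^ 2 ≤ 18 * γ ^ 2 * (7 * m ^ 2) * (4 * (m * A)) * (4 * (m * A')) := by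
    refine h.trans ?_
    have e6 : 0 ≤ 18 * γ ^ 2 * (7 * m ^ 2) := by positivity
    calc (4 * m ^ 2 * (18 * γ ^ 2) + 18 * γ ^ 2 / L * (2 * m * (m * L) + 4 * m * Y)) * S₂ * S₁
        ≤ 18 * γ ^ 2 * (7 * m ^ 2) * S₂ * S₁ := by gcongr
      _ ≤ 18 * γ ^ 2 * (7 * m ^ 2) * (4 * (m * A)) * (4 * (m * A')) := by gcongr
  have e7 : m ^ 4 * T ^ 2 ≤ m ^ 4 * (2016 * γ ^ 2 * A * A') := by
    calc m ^ 4 * T ^ 2 = (m ^ 2 * T) ^ 2 := by ring
      _ ≤ _ := e5
      _ = _ := by ring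
  have e8 : T ^ 2 ≤ 2016 * γ ^ 2 * A * A' := le_of_mul_le_mul_left e7 (by positivity)
  refine e8.trans ?_
  have e9 : 0 ≤ γ ^ 2 * A * A' := by positivity
  nlinarith

open A22 Orbit in
theorem prove_unit3 (hreal : S_real) (hcol : S_col) (hmid : S_mid) (hdet : S_det) (hup : S_up) :
    S_unit3 := by
  intro B _ _ _ τ hτ K _ _ _ w hw q₁ q₂ C hq₁ hq₂ hd₁ hd₂ γ hγ hwb L m hm hL hl Ω E p₁ p₂ G hW₁
    hW₂ x hx hp ζ η
  have hph : St_phtr.{0} := prove_phtr prove_orth prove_expand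
  obtain ⟨v1, v2, v3⟩ := prove3_vmap.{0, 0} B K w
  have hγ0 : 0 ≤ γ := by linarith
  have hmr : (1 : ℝ) ≤ m := by exact_mod_cast hm
  have hm0 : (0 : ℝ) < m := by linarith
  have hγ6 : 1 ≤ γ ^ 6 := one_le_pow₀ hγ
  have hLr : 25920 * (m : ℝ) ^ 11 ≤ L := by
    refine le_trans ?_ hL
    have : 0 ≤ 25920 * (m : ℝ) ^ 11 := by positivity
    nlinarith
  have hL0 : (0 : ℝ) < L := by
    have : (0 : ℝ) < (m : ℝ) ^ 11 := by positivity
    linarith
  have hLn : 0 < L := by exact_mod_cast hL0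
  have hn : 0 < m * L := Nat.mul_pos hm hLn
  have hneF : Nonempty (Fin (m * L)) := ⟨⟨0, hn⟩⟩
  have hcr := prove3_crude.{0, 0} B K w L m γ hγ0 hl
  have hcrv := prove3_crude.{0, 0} B K (vmap w) L m γ hγ0 (v2 L γ hl)
  have hmg : 0 ≤ (m : ℝ) * γ := by positivity
  -- nonnegativity of the forms
  have hQ₁ := qa_form hq₁ (ι := Fin (m * L))
  have hQ₂ := qa_form hq₂ (ι := Fin (m * L))
  by_cases hζ : ζ = 0
  · subst hζ
    rw [map_zero, inner_zero_left, norm_zero, zero_pow two_ne_zero]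
    have h1 := hQ₂.pos (0 : HH (Fin (m * L)) K)
    have h2 := hQ₁.pos η
    positivity
  by_cases hη : η = 0
  · subst hη
    rw [inner_zero_right, norm_zero, zero_pow two_ne_zero]
    have h1 := hQ₂.pos ζ
    have h2 := hQ₁.pos (0 : HH (Fin (m * L)) K)
    positivity
  set A : ℝ := (qa q₂ ζ ζ).re + ‖ζ‖ ^ 2 with hA
  set A' : ℝ := (qa q₁ η η).re + ‖η‖ ^ 2 with hA'
  have hA0 : 0 < A := by
    have h1 := hQ₂.pos ζ
    have h2 : 0 < ‖ζ‖ := norm_pos_iff.2 hζ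
    positivity
  have hA'0 : 0 < A' := by
    have h1 := hQ₁.pos η
    have h2 : 0 < ‖η‖ := norm_pos_iff.2 hη
    positivity
  have hRz : NeZero (2 * m + 2) := ⟨by omega⟩
  -- column inequalities
  set Γ : ℝ := 6 * (m * γ) ^ 2 with hΓ
  have hΓ0 : 0 ≤ Γ := by positivity
  have colw := fun (κ : Type) [Fintype κ] (y : κ → CStarMatrix (Fin (m * L)) (Fin (m * L)) B)
      (θ : HH (Fin (m * L)) K) => hcol B τ hτ K w hw q₂ C hq₂ hd₂ (Fin (m * L)) (m * γ) hmg hcr κ y θ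
  have colv := fun (κ : Type) [Fintype κ] (y : κ → CStarMatrix (Fin (m * L)) (Fin (m * L)) B)
      (θ : HH (Fin (m * L)) K) => hcol B τ hτ K (vmap w) hw.vmap q₁ C hq₁ hd₁ (Fin (m * L)) (m * γ)
        hmg hcrv κ y θ
  set δ : ℝ := 1 / (12 * m ^ 4 * γ ^ 2) with hδ
  have hpst : ∀ i j, pmat τ (star x) i j ≤ δ := by
    intro i j
    have e1 : pmat τ (star x) i j = pmat τ x j i := by
      unfold pmat
      rw [CStarMatrix.star_apply, star_star, hτ.comm]
    rw [e1]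
    exact hp j i
  have hrest : ∀ k : ℕ, k < m → ∀ (θ : HH (Fin (m * L)) K), Γ * ((k + 1) ^ 2 * δ) * ‖θ‖ ^ 2 ≤
      ‖θ‖ ^ 2 := by
    intro k hk θ
    have h1 : Γ * (((k : ℝ) + 1) ^ 2 * δ) ≤ 1 := by
      have h2 : (k : ℝ) + 1 ≤ m := by exact_mod_cast hk
      calc Γ * (((k : ℝ) + 1) ^ 2 * δ) ≤ Γ * ((m : ℝ) ^ 2 * δ) := by
            have h3 : 0 ≤ δ := by rw [hδ]; positivity
            gcongr
        _ = 1 / 2 := by
            rw [hΓ, hδ]
            have : γ ≠ 0 := by linarith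
            field_simp
            norm_num
        _ ≤ 1 := by norm_num
    calc Γ * (((k : ℝ) + 1) ^ 2 * δ) * ‖θ‖ ^ 2 ≤ 1 * ‖θ‖ ^ 2 := by gcongr
      _ = _ := one_mul _
  set N : ℝ := (Fintype.card (Fin (m * L) → ZMod (2 * m + 2)) : ℝ) with hN
  have hN0 : 0 < N := by
    rw [hN]
    exact_mod_cast Fintype.card_pos
  -- notation
  set W := amp w (Fin (m * L)) with hWdef
  set V := amp (vmap w) (Fin (m * L)) with hVdef
  let D1 : Ω → CStarMatrix (Fin (m * L)) (Fin (m * L)) B := fun ω => dgu (p₁ ω)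
  let D2 : Ω → CStarMatrix (Fin (m * L)) (Fin (m * L)) B := fun ω => dgu (p₂ ω)
  have hD1 : ∀ ω, D1 ω ∈ unitary (CStarMatrix (Fin (m * L)) (Fin (m * L)) B) :=
    fun ω => gm_unitary _
  have hD2 : ∀ ω, D2 ω ∈ unitary (CStarMatrix (Fin (m * L)) (Fin (m * L)) B) :=
    fun ω => gm_unitary _
  let U : Ω → (Fin (m * L) → ZMod (2 * m + 2)) → CStarMatrix (Fin (m * L)) (Fin (m * L)) B :=
    fun ω φ => x * gm (fun c : Fin (m * L) => G ω c) * ph B φ
  have hU : ∀ ω φ, U ω φ ∈ unitary (CStarMatrix (Fin (m * L)) (Fin (m * L)) B) :=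
    fun ω φ => mul_mem (mul_mem hx (gm_unitary _)) (Tele.ph_unitary _)
  let r2 : Ω → (Fin (m * L) → ZMod (2 * m + 2)) → ℕ → HH (Fin (m * L)) K :=
    fun ω φ q => W (D2 ω) (W (star (U ω φ) ^ (q + 1)) (W x ζ))
  let r1 : Ω → (Fin (m * L) → ZMod (2 * m + 2)) → ℕ → HH (Fin (m * L)) K :=
    fun ω φ k => V (D1 ω) (V (U ω φ ^ k) η)
  have hr2n : ∀ ω φ q, ‖r2 ω φ q‖ ≤ m * γ * ‖ζ‖ := by
    intro ω φ q
    have e1 : r2 ω φ q = W (D2 ω * (star (U ω φ) ^ (q + 1) * x)) ζ := by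
      simp only [r2, hWdef, amp_mul hw, mul_apply_eq_comp]
    have h1 : D2 ω * (star (U ω φ) ^ (q + 1) * x) ∈
        unitary (CStarMatrix (Fin (m * L)) (Fin (m * L)) B) :=
      mul_mem (hD2 ω) (mul_mem (pow_mem (Unitary.star_mem (hU ω φ)) _) hx)
    rw [e1]
    refine (ContinuousLinearMap.le_opNorm _ _).trans ?_
    refine mul_le_mul_of_nonneg_right ?_ (norm_nonneg _)
    refine (hcr _).trans ?_
    calc m * γ * _ ≤ m * γ * 1 := mul_le_mul_of_nonneg_left (Rec2.norm_unitary_le h1) hmg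
      _ = m * γ := mul_one _
  have hr1n : ∀ ω φ k, ‖r1 ω φ k‖ ≤ m * γ * ‖η‖ := by
    intro ω φ k
    have e1 : r1 ω φ k = V (D1 ω * U ω φ ^ k) η := by
      simp only [r1, hVdef, amp_mul hw.vmap, mul_apply_eq_comp]
    have h1 : D1 ω * U ω φ ^ k ∈ unitary (CStarMatrix (Fin (m * L)) (Fin (m * L)) B) :=
      mul_mem (hD1 ω) (pow_mem (hU ω φ) _)
    rw [e1]
    refine (ContinuousLinearMap.le_opNorm _ _).trans ?_
    refine mul_le_mul_of_nonneg_right ?_ (norm_nonneg _)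
    refine (hcrv _).trans ?_
    calc m * γ * _ ≤ m * γ * 1 := mul_le_mul_of_nonneg_left (Rec2.norm_unitary_le h1) hmg
      _ = m * γ := mul_one _
  -- the two random quantities
  let a2 : Ω → (Fin (m * L) → ZMod (2 * m + 2)) → ℕ → ℂ := fun ω φ q => qa q₂ (r2 ω φ q) (r2 ω φ q)
  let a1 : Ω → (Fin (m * L) → ZMod (2 * m + 2)) → ℕ → ℂ := fun ω φ k => qa q₁ (r1 ω φ k) (r1 ω φ k)
  set M2 : ℝ := Fintype.card (Fin (m * L)) * |C| * (m * γ * ‖ζ‖) * (m * γ * ‖ζ‖) with hM2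
  set M1 : ℝ := Fintype.card (Fin (m * L)) * |C| * (m * γ * ‖η‖) * (m * γ * ‖η‖) with hM1
  have ha2n : ∀ ω φ q, ‖a2 ω φ q‖ ≤ M2 := by
    intro ω φ q
    refine (hQ₂.bd _ _).trans ?_
    have := hr2n ω φ q
    rw [hM2]
    gcongr
  have ha1n : ∀ ω φ k, ‖a1 ω φ k‖ ≤ M1 := by
    intro ω φ k
    refine (hQ₁.bd _ _).trans ?_
    have := hr1n ω φ k
    rw [hM1]
    gcongr
  have ha2p : ∀ ω φ q, 0 ≤ (a2 ω φ q).re := fun ω φ q => hQ₂.pos _
  have ha1p : ∀ ω φ k, 0 ≤ (a1 ω φ k).re := fun ω φ k => hQ₁.pos _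
  let g2 : Ω → ℂ := fun ω => ∑ q ∈ range m, ∑ φ, a2 ω φ q
  let g1 : Ω → ℂ := fun ω => ∑ k ∈ range m, ∑ φ, a1 ω φ k
  have hE2 : (E.E g2).re ≤ m * (N * A) := by
    have e1 : E.E g2 = ∑ q ∈ range m, E.E (fun ω => ∑ φ, a2 ω φ q) :=
      E.sum' (range m) fun q ω => ∑ φ, a2 ω φ q
    rw [e1, Complex.re_sum]
    have e2 : ∀ q ∈ range m, (E.E (fun ω => ∑ φ, a2 ω φ q)).re ≤ N * A := by
      intro q hq
      rw [mem_range] at hq
      have h1 := hup B τ hτ K w hw q₂ C hq₂ (m * L) Γ hΓ0 colw Ω E p₂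
        (fun ω c => star (G ω c)) hW₂ (star x) 1 (Unitary.star_mem hx) (one_mem _) δ hpst
        (2 * m + 2) q (by omega) ζ
      have e3 : (fun ω => ∑ φ, a2 ω φ q) = fun ω => ∑ φ : Fin (m * L) → ZMod (2 * m + 2), qa q₂
          (amp w (Fin (m * L)) (dgu (p₂ ω) *
            (1 * Tw (star x) (fun c : Fin (m * L) => star (G ω c)) φ q)) ζ)
          (amp w (Fin (m * L)) (dgu (p₂ ω) *
            (1 * Tw (star x) (fun c : Fin (m * L) => star (G ω c)) φ q)) ζ) := by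
        funext ω
        rw [← Equiv.sum_comp (Equiv.neg (Fin (m * L) → ZMod (2 * m + 2)))
          fun φ => qa q₂ (amp w (Fin (m * L)) (dgu (p₂ ω) *
            (1 * Tw (star x) (fun c : Fin (m * L) => star (G ω c)) φ q)) ζ)
            (amp w (Fin (m * L)) (dgu (p₂ ω) *
            (1 * Tw (star x) (fun c : Fin (m * L) => star (G ω c)) φ q)) ζ)]
        refine sum_congr rfl fun φ _ => ?_
        have e4 : r2 ω φ q = amp w (Fin (m * L)) (dgu (p₂ ω) *
            (1 * Tw (star x) (fun c : Fin (m * L) => star (G ω c)) (-φ) q)) ζ := by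
          have e5 := star_pow_U x hx (fun c : Fin (m * L) => G ω c) φ q
          rw [← e5]
          simp only [r2, hWdef, amp_mul hw, mul_apply_eq_comp]
          rfl
        simp only [a2]
        rw [e4]
        rfl
      rw [e3]
      refine h1.trans ?_
      rw [← hN]
      refine mul_le_mul_of_nonneg_left ?_ hN0.le
      have := hrest q hq ζ
      rw [hA]
      linarith
    refine (sum_le_sum e2).trans (le_of_eq ?_)
    rw [sum_const, card_range, nsmul_eq_mul]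
  have hE1 : (E.E g1).re ≤ m * (N * A') := by
    have e1 : E.E g1 = ∑ k ∈ range m, E.E (fun ω => ∑ φ, a1 ω φ k) :=
      E.sum' (range m) fun k ω => ∑ φ, a1 ω φ k
    rw [e1, Complex.re_sum]
    have e2 : ∀ k ∈ range m, (E.E (fun ω => ∑ φ, a1 ω φ k)).re ≤ N * A' := by
      intro k hk
      rw [mem_range] at hk
      rcases Nat.eq_zero_or_pos k with hk0 | hk0
      · subst hk0
        have e3 : (fun ω => ∑ φ, a1 ω φ 0) = fun ω => (N : ℂ) * ∑ i, q₁ (vmap w (p₁ ω : B) (η i))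
            (vmap w (p₁ ω : B) (η i)) := by
          funext ω
          have e4 : ∀ φ, a1 ω φ 0 = ∑ i, q₁ (vmap w (p₁ ω : B) (η i))
              (vmap w (p₁ ω : B) (η i)) := by
            intro φ
            have e5 : ∀ i, r1 ω φ 0 i = vmap w (p₁ ω : B) (η i) := by
              intro i
              simp only [r1, pow_zero, hVdef, amp_one hw.vmap]
              change amp (vmap w) (Fin (m * L)) (dgu (p₁ ω)) η i = _
              rw [amp_apply, Finset.sum_eq_single i]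
              · unfold dgu
                rw [gm_apply, if_pos rfl]
              · intro j _ hj
                unfold dgu
                rw [gm_apply, if_neg (Ne.symm hj), map_zero]
                rfl
              · simp
            simp only [a1, qa, e5]
          rw [sum_congr rfl fun φ _ => e4 φ, sum_const, card_univ, nsmul_eq_mul, hN]
          push_cast
          rfl
        rw [e3, E.const_mul, E.sum']
        have e6 : ∀ i, E.E (fun ω => q₁ (vmap w (p₁ ω : B) (η i)) (vmap w (p₁ ω : B) (η i))) =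
            q₁ (η i) (η i) := by
          intro i
          have h1 := hW₁.form [] [] (by simp) (by simp) (by simp) 1 1 (η i) (η i)
          simp only [Wd, mul_one, Rv, hw.vmap.one] at h1
          exact h1
        rw [sum_congr rfl fun i _ => e6 i]
        have e7 : ((N : ℂ) * ∑ i, q₁ (η i) (η i)).re = N * (qa q₁ η η).re := by
          rw [Complex.re_ofReal_mul]
          rfl
        rw [e7, hA']
        have : 0 ≤ ‖η‖ ^ 2 := by positivity
        nlinarith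
      · obtain ⟨k', rfl⟩ : ∃ k', k = k' + 1 := ⟨k - 1, by omega⟩
        have h1 := hup B τ hτ K (vmap w) hw.vmap q₁ C hq₁ (m * L) Γ hΓ0 colv Ω E p₁ G hW₁ x x hx
          hx δ hp (2 * m + 2) k' (by omega) η
        have e3 : (fun ω => ∑ φ, a1 ω φ (k' + 1)) = fun ω =>
            ∑ φ : Fin (m * L) → ZMod (2 * m + 2), qa q₁
            (amp (vmap w) (Fin (m * L)) (dgu (p₁ ω) *
              (x * Tw x (fun c : Fin (m * L) => G ω c) φ k')) η)
            (amp (vmap w) (Fin (m * L)) (dgu (p₁ ω) *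
              (x * Tw x (fun c : Fin (m * L) => G ω c) φ k')) η) := by
          funext ω
          refine sum_congr rfl fun φ _ => ?_
          have e4 : r1 ω φ (k' + 1) = amp (vmap w) (Fin (m * L)) (dgu (p₁ ω) *
              (x * Tw x (fun c : Fin (m * L) => G ω c) φ k')) η := by
            have e5 := pow_U x (fun c : Fin (m * L) => G ω c) φ k'
            rw [← e5]
            simp only [r1, hVdef, amp_mul hw.vmap, mul_apply_eq_comp]
            rfl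
          simp only [a1]
          rw [e4]
        rw [e3]
        refine h1.trans ?_
        rw [← hN]
        refine mul_le_mul_of_nonneg_left ?_ hN0.le
        have := hrest k' (by omega) η
        rw [hA']
        linarith
    refine (sum_le_sum e2).trans (le_of_eq ?_)
    rw [sum_const, card_range, nsmul_eq_mul]
  -- traces
  let Y : Ω → (Fin (m * L) → ZMod (2 * m + 2)) → ℝ := fun ω φ =>
    ∑ k ∈ range (2 * m), ‖tr τ (Fin (m * L)) (U ω φ ^ (k + 1))‖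
  have hY0 : ∀ ω φ, 0 ≤ Y ω φ := fun ω φ => sum_nonneg fun k _ => norm_nonneg _
  set yb : ℝ := L / (50 * m) with hyb
  have hyb0 : 0 < yb := by positivity
  have hYs : ∀ ω, ∑ φ, Y ω φ ≤ N * yb := fun ω =>
    phase_tr hph hτ m L hm hLr (2 * m + 2) (by omega) (x * gm (fun c : Fin (m * L) => G ω c))
      (mul_mem hx (gm_unitary _))
  have hb2 : ∀ ω, ‖g2 ω‖ ≤ m * (N * M2) := by
    intro ω
    refine (norm_sum_le _ _).trans ?_
    calc ∑ q ∈ range m, ‖∑ φ, a2 ω φ q‖ ≤ ∑ _q ∈ range m, N * M2 := by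
          refine sum_le_sum fun q _ => (norm_sum_le _ _).trans ?_
          refine (sum_le_sum fun φ _ => ha2n ω φ q).trans (le_of_eq ?_)
          rw [sum_const, card_univ, nsmul_eq_mul]
      _ = _ := by rw [sum_const, card_range, nsmul_eq_mul]
  have hb1 : ∀ ω, ‖g1 ω‖ ≤ m * (N * M1) := by
    intro ω
    refine (norm_sum_le _ _).trans ?_
    calc ∑ q ∈ range m, ‖∑ φ, a1 ω φ q‖ ≤ ∑ _q ∈ range m, N * M1 := by
          refine sum_le_sum fun q _ => (norm_sum_le _ _).trans ?_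
          refine (sum_le_sum fun φ _ => ha1n ω φ q).trans (le_of_eq ?_)
          rw [sum_const, card_univ, nsmul_eq_mul]
      _ = _ := by rw [sum_const, card_range, nsmul_eq_mul]
  -- a good sample
  obtain ⟨ω, φ, hgood⟩ : ∃ ω φ, (∑ q ∈ range m, (a2 ω φ q).re) / (m * A) +
      (∑ k ∈ range m, (a1 ω φ k).re) / (m * A') + Y ω φ / yb ≤ 4 := by
    by_contra hcon
    push Not at hcon
    have h1 : ∀ ω, 3 * N ≤ (g2 ω).re / (m * A) + (g1 ω).re / (m * A') := by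
      intro ω
      have e1 : ∑ φ, (4 : ℝ) ≤ ∑ φ, ((∑ q ∈ range m, (a2 ω φ q).re) / (m * A) +
          (∑ k ∈ range m, (a1 ω φ k).re) / (m * A') + Y ω φ / yb) :=
        sum_le_sum fun φ _ => (hcon ω φ).le
      rw [sum_const, card_univ, nsmul_eq_mul, ← hN, sum_add_distrib, sum_add_distrib,
        ← sum_div, ← sum_div, ← sum_div] at e1
      have e2 : (∑ φ, Y ω φ) / yb ≤ N := by
        rw [div_le_iff₀ hyb0]
        exact hYs ω
      have e3 : ∑ φ, ∑ q ∈ range m, (a2 ω φ q).re = (g2 ω).re := by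
        rw [sum_comm]
        simp only [g2, Complex.re_sum]
      have e4 : ∑ φ, ∑ q ∈ range m, (a1 ω φ q).re = (g1 ω).re := by
        rw [sum_comm]
        simp only [g1, Complex.re_sum]
      rw [e3, e4] at e1
      linarith
    obtain ⟨hr1, hr2⟩ := hreal Ω E
    have h2 := (hr1 (fun ω => (g2 ω).re / (m * A) + (g1 ω).re / (m * A') - 3 * N)
      (m * (N * M2) / (m * A) + m * (N * M1) / (m * A') + 3 * N) (by
        intro ω
        have e1 := (Complex.abs_re_le_norm (g2 ω)).trans (hb2 ω)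
        have e2 := (Complex.abs_re_le_norm (g1 ω)).trans (hb1 ω)
        have e3 : |(g2 ω).re / (m * A)| ≤ m * (N * M2) / (m * A) := by
          rw [abs_div, abs_of_pos (by positivity : 0 < (m : ℝ) * A)]
          gcongr
        have e4 : |(g1 ω).re / (m * A')| ≤ m * (N * M1) / (m * A') := by
          rw [abs_div, abs_of_pos (by positivity : 0 < (m : ℝ) * A')]
          gcongr
        rw [abs_le] at e3 e4 ⊢
        constructor <;> linarith)).2 (fun ω => by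
          have := h1 ω
          linarith)
    have e5 : (fun ω => (((g2 ω).re / (m * A) + (g1 ω).re / (m * A') - 3 * N : ℝ) : ℂ)) =
        fun ω => ((((m * A : ℝ) : ℂ)⁻¹ * ((g2 ω).re : ℂ) + ((m * A' : ℝ) : ℂ)⁻¹ * ((g1 ω).re : ℂ)) +
          (-(3 * N : ℝ) : ℂ)) := by
      funext ω
      push_cast
      ring
    rw [e5, E.add', E.add', E.const_mul, E.const_mul, E.const, (hr2 g2 _ hb2).2,
      (hr2 g1 _ hb1).2] at h2
    have e6 : ((((m * A : ℝ) : ℂ)⁻¹ * ((E.E g2).re : ℂ) + ((m * A' : ℝ) : ℂ)⁻¹ *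
        ((E.E g1).re : ℂ)) + (-(3 * N : ℝ) : ℂ)).re =
        (m * A)⁻¹ * (E.E g2).re + (m * A')⁻¹ * (E.E g1).re - 3 * N := by
      have : ((((m * A : ℝ) : ℂ)⁻¹ * ((E.E g2).re : ℂ) + ((m * A' : ℝ) : ℂ)⁻¹ *
        ((E.E g1).re : ℂ)) + (-(3 * N : ℝ) : ℂ)) =
        (((m * A)⁻¹ * (E.E g2).re + (m * A')⁻¹ * (E.E g1).re - 3 * N : ℝ) : ℂ) := by
        push_cast
        ring
      rw [this, Complex.ofReal_re]
    rw [e6] at h2
    have e7 : (m * A)⁻¹ * (E.E g2).re ≤ N := by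
      rw [inv_mul_le_iff₀ (by positivity)]
      linarith
    have e8 : (m * A')⁻¹ * (E.E g1).re ≤ N := by
      rw [inv_mul_le_iff₀ (by positivity)]
      linarith
    linarith
  have hs2 : 0 ≤ ∑ q ∈ range m, (a2 ω φ q).re := sum_nonneg fun q _ => ha2p ω φ q
  have hs1 : 0 ≤ ∑ k ∈ range m, (a1 ω φ k).re := sum_nonneg fun k _ => ha1p ω φ k
  have ht2 : 0 ≤ (∑ q ∈ range m, (a2 ω φ q).re) / (m * A) := by positivity
  have ht1 : 0 ≤ (∑ k ∈ range m, (a1 ω φ k).re) / (m * A') := by positivity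
  have ht0 : 0 ≤ Y ω φ / yb := div_nonneg (hY0 ω φ) hyb0.le
  have hf2 : ∑ q ∈ range m, (a2 ω φ q).re ≤ 4 * (m * A) := by
    rw [← div_le_iff₀ (by positivity)]
    linarith
  have hf1 : ∑ k ∈ range m, (a1 ω φ k).re ≤ 4 * (m * A') := by
    rw [← div_le_iff₀ (by positivity)]
    linarith
  have hf0 : Y ω φ ≤ 4 * yb := by
    rw [← div_le_iff₀ hyb0]
    linarith
  -- the deterministic inequality
  have hWh : IsHom W := ⟨amp_mul hw, amp_one hw⟩
  set C₂ : ℝ := abs ((Fintype.card (Fin (m * L)) : ℝ) * |C|) * ‖W (D2 ω)‖ ^ 2 with hC₂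
  set C₁ : ℝ := abs ((Fintype.card (Fin (m * L)) : ℝ) * |C|) * ‖V (D1 ω)‖ ^ 2 with hC₁
  have hF1 : IsForm (fun ξ ξ' => qa q₁ (V (D1 ω) ξ) (V (D1 ω) ξ')) (max C₁ C₂) :=
    form_mono (form_comp hQ₁ (V (D1 ω))) (le_max_left _ _)
  have hF2 : IsForm (fun ξ ξ' => qa q₂ (W (D2 ω) ξ) (W (D2 ω) ξ')) (max C₁ C₂) :=
    form_mono (form_comp hQ₂ (W (D2 ω))) (le_max_right _ _)
  have ht1' : (tr τ (Fin (m * L)) (1 : CStarMatrix (Fin (m * L)) (Fin (m * L)) B)).re =
      (m : ℝ) * L := by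
    rw [Rec2.tr_one hτ, Fintype.card_fin]
    rw [Complex.natCast_re]
    push_cast
    rfl
  have hd := hdet (CStarMatrix (Fin (m * L)) (Fin (m * L)) B) (HH (Fin (m * L)) K) W hWh
    (fun ξ ξ' => qa q₁ (V (D1 ω) ξ) (V (D1 ω) ξ')) (fun ξ ξ' => qa q₂ (W (D2 ω) ξ) (W (D2 ω) ξ'))
    (max C₁ C₂) hF1 hF2 (tr τ (Fin (m * L))) (Rec2.tr_star hτ) (by rw [ht1']; positivity)
    (18 * γ ^ 2) (18 * γ ^ 2 / L) (by positivity) (by positivity)
    (fun X ξ ξ' => mid_sample hmid hτ hw hq₁ hq₂ hd₁ hd₂ hm hLn hγ0 hl (D1 ω) (D2 ω) (hD1 ω)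
      (hD2 ω) X ξ ξ') (U ω φ) (hU ω φ) (W x ζ) η m hm
  have hvV : ∀ X, vmap W X = V X := fun X => (v1 (Fin (m * L)) X).symm
  rw [ht1'] at hd
  simp only [hvV] at hd
  exact num_final hmr hL0 hA0 hA'0 hs2 hs1 hf2 hf1 hf0 hd

end main

end Y764.D3
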